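import Pool.Agent.N139.AS.Stm2

/-!
# AS/CLKER: a subgroup of bounded index contains the kernel of a folding map
-/

set_option autoImplicit false

namespace Pool.Agent.N933.AS

open Pool.Agent.N139.AS

theorem mulL (p : ℕ) (l m : Lam) : (⟨0, l + m⟩ : NN p) = ⟨0, l⟩ * ⟨0, m⟩ := by
  ext1
  · rw [NN.mul_a]; simp
  · rw [NN.mul_l]

theorem mulA (p : ℕ) (a b : Lam →₀ ZMod p) : (⟨a + b, 0⟩ : NN p) = ⟨a, 0⟩ * ⟨b, 0⟩ := by
  ext i
  · rw [NN.mul_a]
    simp [trl_apply]
  · rw [NN.mul_l]; simp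

theorem mulAL (p : ℕ) (n : NN p) : n = ⟨n.a, 0⟩ * ⟨0, n.l⟩ := by
  ext i
  · rw [NN.mul_a]; simp
  · rw [NN.mul_l]; simp

theorem shN_one (p : ℕ) (i : ℤ) (c : ZMod 2) :
    shN p ⟨0, Finsupp.single i c⟩ = ⟨0, Finsupp.single (i + 1) c⟩ := by
  show (⟨shA p 0, shL (Finsupp.single i c)⟩ : NN p) = _
  rw [map_zero]
  congr 1
  exact Finsupp.equivMapDomain_single _ _ _

theorem shN_pow (p q : ℕ) (i : ℤ) (c : ZMod 2) :
    (shN p ^ q) ⟨0, Finsupp.single i c⟩ = ⟨0, Finsupp.single (i + q) c⟩ := by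
  induction q generalizing i with
  | zero => simp
  | succ q ih =>
    rw [pow_succ, MulAut.mul_apply, shN_one, ih]
    congr 2
    push_cast
    ring

theorem fold {Q : Type*} [Group Q] (p q : ℕ) (π : NN p →* Q) (h : ∀ n, π ((shN p ^ q) n) = π n)
    (n : NN p) : π (fN p q n) = π n := by
  have h1 : ∀ (i : ℤ) (c : ZMod 2), π ⟨0, Finsupp.single (fi q i) c⟩ = π ⟨0, Finsupp.single i c⟩ := by
    intro i c
    have hp : Function.Periodic (fun i : ℤ => π ⟨0, Finsupp.single i c⟩) (q : ℤ) := by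
      intro i
      show π ⟨0, Finsupp.single (i + q) c⟩ = π ⟨0, Finsupp.single i c⟩
      rw [← shN_pow, h]
    have h2 := hp.sub_zsmul_eq (x := i) (i / q + 1)
    have e : fi q i = i - (i / q + 1) • (q : ℤ) := by
      unfold fi
      rw [Int.emod_def, smul_eq_mul]
      ring
    rw [e]
    exact h2
  have hL : ∀ l : Lam, π ⟨0, fL q l⟩ = π ⟨0, l⟩ := by
    intro l
    induction l using Finsupp.induction_linear with
    | zero => rw [map_zero]
    | add l m hl hm => rw [map_add, mulL, mulL, map_mul, map_mul, hl, hm]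
    | single i c =>
      have e : fL q (Finsupp.single i c) = Finsupp.single (fi q i) c := Finsupp.mapDomain_single
      rw [e, h1]
  have h3 : ∀ (y : Lam) (c : ZMod p), π ⟨Finsupp.single (fL q y) c, 0⟩ = π ⟨Finsupp.single y c, 0⟩ := by
    intro y c
    have e0 : π ⟨0, fL q y + -y⟩ = 1 := by
      rw [mulL, map_mul, hL, ← map_mul, ← mulL, add_neg_cancel]
      exact map_one π
    have e1 : (⟨Finsupp.single (fL q y) c, 0⟩ : NN p) =
        ⟨0, fL q y + -y⟩ * ⟨Finsupp.single y c, 0⟩ * (⟨0, fL q y + -y⟩)⁻¹ := by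
      ext1
      · rw [NN.mul_a, NN.mul_a, NN.inv_a]
        simp only [map_zero, neg_zero, add_zero, zero_add]
        symm
        refine (Finsupp.equivMapDomain_single _ _ _).trans ?_
        congr 1
        simp
      · rw [NN.mul_l, NN.mul_l, NN.inv_l]
        simp
    rw [e1, map_mul, map_mul, map_inv, e0]
    simp
  have hA : ∀ a : Lam →₀ ZMod p, π ⟨fA p q a, 0⟩ = π ⟨a, 0⟩ := by
    intro a
    induction a using Finsupp.induction_linear with
    | zero => rw [map_zero]
    | add a b ha hb => rw [map_add, mulA, mulA, map_mul, map_mul, ha, hb]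
    | single y c =>
      have e : fA p q (Finsupp.single y c) = Finsupp.single (fL q y) c := Finsupp.mapDomain_single
      rw [e, h3]
  calc π (fN p q n) = π ⟨fA p q n.a, fL q n.l⟩ := rfl
    _ = π (⟨fA p q n.a, 0⟩ * ⟨0, fL q n.l⟩) := by rw [mulAL p ⟨fA p q n.a, fL q n.l⟩]
    _ = π ⟨n.a, 0⟩ * π ⟨0, n.l⟩ := by rw [map_mul, hA, hL]
    _ = π n := by rw [← map_mul, ← mulAL]

theorem tt_pow_mul {N : Type} [Group N] (S : WD N) (q : ℕ) (n : N) :
    tt S ^ q * inn S n = inn S ((S.σ ^ q) n) * tt S ^ q := by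
  induction q generalizing n with
  | zero => simp
  | succ q ih =>
    rw [pow_succ, mul_assoc, tt_mul, ← mul_assoc, ih, mul_assoc]
    rfl

theorem t_CLKER : S_CLKER := by
  intro p _ B L h0 hB n hn
  have hker : L.normalCore = (MulAction.toPermHom (GG (SS p)) (GG (SS p) ⧸ L)).ker :=
    Subgroup.normalCore_eq_ker L
  have hFI : L.FiniteIndex := ⟨h0⟩
  have hfin : Finite (GG (SS p) ⧸ L) := Subgroup.finite_quotient_of_finiteIndex
  have htt : tt (SS p) ^ B.factorial ∈ L.normalCore := by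
    rw [hker, MonoidHom.mem_ker, map_pow]
    have : Fintype (GG (SS p) ⧸ L) := Fintype.ofFinite _
    classical
    have h1 : orderOf (MulAction.toPermHom (GG (SS p)) (GG (SS p) ⧸ L) (tt (SS p))) ∣ B.factorial := by
      refine orderOf_dvd_natCard _ |>.trans ?_
      rw [Nat.card_perm]
      exact Nat.factorial_dvd_factorial hB
    exact orderOf_dvd_iff_pow_eq_one.1 h1
  have hK : ∀ n : NN p, inn (SS p) ((shN p ^ B.factorial) n * n⁻¹) ∈ L.normalCore := by
    intro n
    have e : inn (SS p) ((shN p ^ B.factorial) n * n⁻¹) = tt (SS p) ^ B.factorial *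
        (inn (SS p) n * (tt (SS p) ^ B.factorial)⁻¹ * (inn (SS p) n)⁻¹) := by
      have h2 := tt_pow_mul (SS p) B.factorial n
      rw [← mul_assoc, ← mul_assoc, h2, mul_inv_cancel_right, map_mul, map_inv]
      rfl
    rw [e]
    exact mul_mem htt (Subgroup.Normal.conj_mem inferInstance _ (inv_mem htt) _)
  set K : Subgroup (NN p) := L.normalCore.comap (inn (SS p)) with hKdef
  have hKn : K.Normal := Subgroup.normal_comap _
  have h3 := fold p B.factorial (QuotientGroup.mk' K) (fun m => by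
    have h4 := hK m
    have h5 : (shN p ^ B.factorial) m * m⁻¹ ∈ K := h4
    rw [← QuotientGroup.eq_one_iff, QuotientGroup.mk_mul, QuotientGroup.mk_inv,
      mul_inv_eq_one] at h5
    exact h5) n
  rw [hn, map_one] at h3
  have h6 : n ∈ K := (QuotientGroup.eq_one_iff n).1 h3.symm
  exact Subgroup.normalCore_le L h6

end Pool.Agent.N933.AS
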